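import Pool.Agent.H5.FR2.Stmts

/-!
# Project URB, module BLK: the branching program for one semistable tuple
-/

set_option autoImplicit false

namespace Pool.Agent.H5.FR2

open Finset Pool.Agent.H5.FR Pool.Agent.H80

section

variable {n : ℕ} {X Y : Type} [Fintype X] [Fintype Y]

private lemma blk_le_left (B : Fin n → Matrix X Y ℂ) (h : SS B) (hy : 0 < Fintype.card Y) :
    Fintype.card X ≤ n * Fintype.card Y := by
  have h1 := h ⊤
  rw [finrank_top, Module.finrank_fintype_fun_eq_card] at h1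
  have h2 : Fintype.card X ≤ Module.finrank ℂ (img B ⊤) := by
    rw [mul_comm] at h1
    exact Nat.le_of_mul_le_mul_left h1 hy
  refine h2.trans ?_
  have h3 : img B ⊤ ≤ LinearMap.range (LinearMap.lsum ℂ (fun _ : Fin n => (Y → ℂ)) ℂ
      (fun a => Matrix.mulVecLin (B a))) := by
    refine iSup_le fun a => ?_
    rintro _ ⟨v, -, rfl⟩
    refine ⟨Pi.single a v, ?_⟩
    simp [LinearMap.lsum_apply, Pi.single_apply, Finset.sum_apply]
    rw [Finset.sum_eq_single a]
    · simp
    · intro b _ hb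
      simp [hb]
    · simp
  refine (Submodule.finrank_mono h3).trans ((LinearMap.finrank_range_le _).trans ?_)
  rw [Module.finrank_pi_fintype]
  simp

private lemma blk_le_right (B : Fin n → Matrix X Y ℂ) (h : SS B) (hx : 0 < Fintype.card X) :
    Fintype.card Y ≤ n * Fintype.card X := by
  let L : (Y → ℂ) →ₗ[ℂ] (Fin n → X → ℂ) := LinearMap.pi (fun a => Matrix.mulVecLin (B a))
  have h1 := h (LinearMap.ker L)
  have h2 : img B (LinearMap.ker L) = ⊥ := by
    rw [eq_bot_iff]
    refine iSup_le fun a => ?_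
    rintro _ ⟨v, hv, rfl⟩
    have : L v = 0 := hv
    have h3 := congrFun this a
    simpa [L] using h3
  rw [h2, finrank_bot, mul_zero] at h1
  have h3 : Module.finrank ℂ (LinearMap.ker L) = 0 := by
    have := Nat.le_zero.mp h1
    rcases Nat.mul_eq_zero.mp this with h | h
    · omega
    · exact h
  have h4 := LinearMap.finrank_range_add_finrank_ker L
  rw [h3, add_zero, Module.finrank_fintype_fun_eq_card] at h4
  have h5 : Module.finrank ℂ (LinearMap.range L) ≤ Module.finrank ℂ (Fin n → X → ℂ) :=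
    Submodule.finrank_le _
  rw [Module.finrank_pi_fintype] at h5
  simp at h5
  omega

end

theorem blk_thm (hSZE : SZEStmt) (hRNK : RNKStmt) (hCOE : COEStmt) : BLKStmt := by
  intro d n C W F hF hW X Y _ _ _ _ B hB
  by_cases hX : ∀ i, 0 < Fintype.card (X i)
  swap
  · push Not at hX
    obtain ⟨i, hi⟩ := hX
    refine ⟨fun _ _ _ _ _ => 0, ?_⟩
    have : ∏ i, Fintype.card (X i) = 0 := Finset.prod_eq_zero (Finset.mem_univ i) (by omega)
    rw [this]
    simp
  by_cases hY : ∀ i, 0 < Fintype.card (Y i)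
  swap
  · push Not at hY
    obtain ⟨i, hi⟩ := hY
    refine ⟨fun _ _ _ _ _ => 0, ?_⟩
    have : ∏ i, Fintype.card (Y i) = 0 := Finset.prod_eq_zero (Finset.mem_univ i) (by omega)
    rw [this]
    simp
  obtain ⟨σ, hσ, hbal⟩ := hSZE d n C F hF (fun i => Fintype.card (X i))
    (fun i => Fintype.card (Y i)) hX hY (fun i => blk_le_left (B i) (hB i) (hY i))
    (fun i => blk_le_right (B i) (hB i) (hX i))
  have : ∀ i, Nonempty (X (σ i)) := fun i => Fintype.card_pos_iff.mp (hX (σ i))
  have : ∀ i, Nonempty (Y (σ i)) := fun i => Fintype.card_pos_iff.mp (hY (σ i))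
  obtain ⟨g, hg⟩ := hRNK n W d (fun i => X (σ i)) (fun i => Y (σ i)) (fun i => B (σ i))
    (fun i => hB (σ i)) (((n : ℝ) + 1) ^ (4 * C)) (one_le_pow₀ (by simp))
    (by exact_mod_cast hW) hbal
  obtain ⟨w, hw⟩ := hCOE d n W F σ hσ g
  refine ⟨w, ?_⟩
  let eX : (∀ i, X i) ≃ (∀ i, X (σ i)) := Equiv.piCongrLeft' X σ.symm
  let eY : (∀ i, Y i) ≃ (∀ i, Y (σ i)) := Equiv.piCongrLeft' Y σ.symm
  have h1 : app B (QQ F w d univ 0) = (tt d (fun i => X (σ i)) (fun i => Y (σ i))
      (fun i => B (σ i)) g 0).submatrix eX eY := by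
    ext p q
    exact hw X Y B p q
  rw [h1, Matrix.rank_submatrix]
  have h2 : ∏ i, Fintype.card (X (σ i)) = ∏ i, Fintype.card (X i) :=
    Equiv.prod_comp σ (fun i => Fintype.card (X i))
  have h3 : ∏ i, Fintype.card (Y (σ i)) = ∏ i, Fintype.card (Y i) :=
    Equiv.prod_comp σ (fun i => Fintype.card (Y i))
  rw [h2, h3] at hg
  exact hg

end Pool.Agent.H5.FR2
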