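import Pool.Agent.H5.FR2.Stmts

/-!
# Project URB, module COE: the tensor train as the matrix of a branching program
-/

set_option autoImplicit false

namespace Pool.Agent.H5.FR2

open Finset Pool.Agent.H5.FR Pool.Agent.H80

/-- the coefficients of a tensor train -/
private noncomputable def coeCf {n W : ℕ} : (t : ℕ) → (Fin t → Fin W → Fin n → Fin W → ℂ) →
    (Fin t → Fin n) → Fin W → ℂ
  | 0, _, _, u => if (u : ℕ) = 0 then 1 else 0
  | t + 1, g, a, v => ∑ u, g (Fin.last t) u (a (Fin.last t)) v *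
      coeCf t (fun i => g i.castSucc) (fun i => a i.castSucc) u

private lemma coe_snoc {M : Type} [AddCommMonoid M] (t n : ℕ) (F : (Fin (t + 1) → Fin n) → M) :
    ∑ a, F a = ∑ a₀ : Fin n, ∑ b : Fin t → Fin n, F (Fin.snoc b a₀) := by
  rw [← (Fin.snocEquiv (fun _ : Fin (t + 1) => Fin n)).sum_comp, Fintype.sum_prod_type]
  rfl

private lemma coe_tt {n W : ℕ} : ∀ (d : ℕ) (X Y : Fin d → Type)
    (A : ∀ i, Fin n → Matrix (X i) (Y i) ℂ) (g : Fin d → Fin W → Fin n → Fin W → ℂ) (v : Fin W)
    (p : ∀ i, X i) (q : ∀ i, Y i),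
    tt d X Y A g v p q = ∑ a : Fin d → Fin n, coeCf d g a v * ∏ i, A i (a i) (p i) (q i)
  | 0, X, Y, A, g, v, p, q => by simp [tt, coeCf]
  | d + 1, X, Y, A, g, v, p, q => by
    simp only [tt]
    rw [coe_snoc d n (fun a => coeCf (d + 1) g a v * ∏ i, A i (a i) (p i) (q i)),
      Finset.sum_comm]
    refine Finset.sum_congr rfl fun a₀ _ => ?_
    simp only [coeCf, Fin.snoc_last, Fin.snoc_castSucc, Fin.prod_univ_castSucc, Finset.sum_mul]
    rw [Finset.sum_comm]
    refine Finset.sum_congr rfl fun u _ => ?_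
    rw [coe_tt d, Finset.mul_sum, Finset.sum_mul]
    refine Finset.sum_congr rfl fun b _ => ?_
    ring

private lemma coe_pre_mem {d : ℕ} (σ : Equiv.Perm (Fin d)) (t : ℕ) (i : Fin d) :
    i ∈ pre σ t ↔ ((σ.symm i : Fin d) : ℕ) < t := by
  simp [pre]

private lemma coe_QQ {n W d : ℕ} (F : Finset (Finset (Fin d))) (σ : Equiv.Perm (Fin d))
    (hσ : ∀ t, t ≤ d → pre σ t ∈ F) (g : Fin d → Fin W → Fin n → Fin W → ℂ)
    (w : Finset (Fin d) → Fin d → Fin W → Fin n → Fin W → ℂ)
    (hw : w = fun X i u a v => if X = pre σ (((σ.symm i : Fin d) : ℕ) + 1) then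
      g (σ.symm i) u a v else 0) :
    ∀ (t : ℕ) (ht : t ≤ d) (v : Fin W), QQ F w t (pre σ t) v =
      ∑ a : Fin t → Fin n, MvPolynomial.C (coeCf t (fun s => g (Fin.castLE ht s)) a v) *
        ∏ s : Fin t, MvPolynomial.X (σ (Fin.castLE ht s), a s)
  | 0, ht, v => by
    have h0 : pre σ 0 = ∅ := by
      ext i
      simp [pre]
    rw [h0]
    by_cases hv : (v : ℕ) = 0
    · simp [QQ, coeCf, hv]
    · simp [QQ, coeCf, hv]
  | t + 1, ht, v => by
    have ht' : t < d := ht
    have hmem : σ ⟨t, ht'⟩ ∈ (pre σ (t + 1)).filter (fun i => (pre σ (t + 1)).erase i ∈ F) := by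
      have h1 : (pre σ (t + 1)).erase (σ ⟨t, ht'⟩) = pre σ t := by
        ext i
        rw [Finset.mem_erase, coe_pre_mem, coe_pre_mem]
        constructor
        · rintro ⟨h1, h2⟩
          have h3 : ((σ.symm i : Fin d) : ℕ) ≠ t := by
            intro h3
            apply h1
            rw [← Equiv.symm_apply_eq]
            exact Fin.ext h3
          omega
        · intro h1
          refine ⟨?_, by omega⟩
          intro h2
          rw [h2] at h1
          simp at h1
      rw [Finset.mem_filter, h1, coe_pre_mem]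
      refine ⟨by simp, hσ t ht'.le⟩
    have herase : (pre σ (t + 1)).erase (σ ⟨t, ht'⟩) = pre σ t := by
      ext i
      rw [Finset.mem_erase, coe_pre_mem, coe_pre_mem]
      constructor
      · rintro ⟨h1, h2⟩
        have h3 : ((σ.symm i : Fin d) : ℕ) ≠ t := by
          intro h3
          apply h1
          rw [← Equiv.symm_apply_eq]
          exact Fin.ext h3
        omega
      · intro h1
        refine ⟨?_, by omega⟩
        intro h2
        rw [h2] at h1
        simp at h1
    rw [QQ, Finset.sum_eq_single_of_mem _ hmem]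
    · have hw1 : ∀ u a, w (pre σ (t + 1)) (σ ⟨t, ht'⟩) u a v = g ⟨t, ht'⟩ u a v := by
        intro u a
        rw [hw]
        simp
      rw [herase, coe_snoc, Finset.sum_comm]
      refine Finset.sum_congr rfl fun a₀ _ => ?_
      have e1 : (Fin.castLE ht (Fin.last t)) = ⟨t, ht'⟩ := rfl
      have e2 : ∀ s : Fin t, Fin.castLE ht s.castSucc = Fin.castLE ht'.le s := fun s => rfl
      simp only [coeCf, Fin.snoc_last, Fin.snoc_castSucc, Fin.prod_univ_castSucc, e1, e2,
        map_sum, map_mul, Finset.sum_mul]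
      rw [Finset.sum_comm]
      refine Finset.sum_congr rfl fun u _ => ?_
      rw [coe_QQ F σ hσ g w hw t ht'.le, Finset.mul_sum, hw1]
      refine Finset.sum_congr rfl fun b _ => ?_
      ring
    · intro i hi hne
      rw [Finset.mem_filter, coe_pre_mem] at hi
      have hlt := hi.1
      have h3 : pre σ (t + 1) ≠ pre σ (((σ.symm i : Fin d) : ℕ) + 1) := by
        intro h3
        have h4 : σ ⟨t, ht'⟩ ∈ pre σ (((σ.symm i : Fin d) : ℕ) + 1) := by
          rw [← h3, coe_pre_mem]
          simp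
        rw [coe_pre_mem] at h4
        simp at h4
        apply hne
        rw [← Equiv.symm_apply_eq]
        refine Fin.ext ?_
        show ((σ.symm i : Fin d) : ℕ) = t
        omega
      rw [hw]
      simp [h3]

private lemma coe_app_sum {d n : ℕ} {X Y : Fin d → Type} {ι : Type}
    (A : ∀ i, Fin n → Matrix (X i) (Y i) ℂ) (s : Finset ι)
    (f : ι → MvPolynomial (Fin d × Fin n) ℂ) (p : ∀ i, X i) (q : ∀ i, Y i) :
    app A (∑ k ∈ s, f k) p q = ∑ k ∈ s, app A (f k) p q := by
  simp only [app, MvPolynomial.coeff_sum, Finset.sum_mul]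
  rw [Finset.sum_comm]

private lemma coe_app_C_mul {d n : ℕ} {X Y : Fin d → Type}
    (A : ∀ i, Fin n → Matrix (X i) (Y i) ℂ) (c : ℂ)
    (f : MvPolynomial (Fin d × Fin n) ℂ) (p : ∀ i, X i) (q : ∀ i, Y i) :
    app A (MvPolynomial.C c * f) p q = c * app A f p q := by
  simp only [app, MvPolynomial.coeff_C_mul, Finset.mul_sum, mul_assoc]

private lemma coe_exp {d n : ℕ} (a b : Fin d → Fin n)
    (h : (∑ i, Finsupp.single (i, a i) 1 : Fin d × Fin n →₀ ℕ) =
      ∑ i, Finsupp.single (i, b i) 1) : a = b := by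
  funext j
  have h1 := DFunLike.congr_fun h (j, b j)
  rw [Finsupp.finsetSum_apply, Finsupp.finsetSum_apply] at h1
  rw [Finset.sum_eq_single j, Finset.sum_eq_single j] at h1
  · by_contra hne
    simp [hne] at h1
  · intro i _ hij
    rw [Finsupp.single_apply, if_neg]
    intro h
    exact hij (congrArg Prod.fst h)
  · simp
  · intro i _ hij
    rw [Finsupp.single_apply, if_neg]
    intro h
    exact hij (congrArg Prod.fst h)
  · simp

private lemma coe_app_prod {d n : ℕ} {X Y : Fin d → Type}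
    (A : ∀ i, Fin n → Matrix (X i) (Y i) ℂ) (σ : Equiv.Perm (Fin d)) (b : Fin d → Fin n)
    (p : ∀ i, X i) (q : ∀ i, Y i) :
    app A (∏ s, MvPolynomial.X (σ s, b s)) p q = ∏ s, A (σ s) (b s) (p (σ s)) (q (σ s)) := by
  have h1 : (∏ s, MvPolynomial.X (σ s, b s) : MvPolynomial (Fin d × Fin n) ℂ) =
      MvPolynomial.monomial (∑ i, Finsupp.single (i, b (σ.symm i)) 1) 1 := by
    rw [MvPolynomial.monomial_sum_one, ← Equiv.prod_comp σ
      (fun i => MvPolynomial.monomial (Finsupp.single (i, b (σ.symm i)) 1) (1 : ℂ))]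
    refine Finset.prod_congr rfl fun s _ => ?_
    simp [MvPolynomial.X]
  rw [h1, app, Finset.sum_eq_single (fun i => b (σ.symm i))]
  · rw [MvPolynomial.coeff_monomial, if_pos rfl, one_mul,
      ← Equiv.prod_comp σ (fun i => A i (b (σ.symm i)) (p i) (q i))]
    refine Finset.prod_congr rfl fun s _ => ?_
    rw [Equiv.symm_apply_apply]
  · intro a _ ha
    rw [MvPolynomial.coeff_monomial, if_neg, zero_mul]
    intro h
    exact ha (coe_exp _ _ h).symm
  · simp

theorem coe_thm : COEStmt := by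
  intro d n W F σ hσ g
  refine ⟨fun X i u a v => if X = pre σ (((σ.symm i : Fin d) : ℕ) + 1) then
      g (σ.symm i) u a v else 0, ?_⟩
  intro X Y A p q
  have hu : (univ : Finset (Fin d)) = pre σ d := by
    ext i
    simp [coe_pre_mem]
  rw [hu, coe_QQ F σ hσ g _ rfl d le_rfl 0, coe_app_sum, coe_tt]
  refine Finset.sum_congr rfl fun a _ => ?_
  rw [coe_app_C_mul]
  congr 1
  exact coe_app_prod A σ a p q

end Pool.Agent.H5.FR2
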