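import Pool.Agent.H78.FR2.TTP

/-!
# Project URB, module FIN: good cores for a tensor train with one output
-/

set_option autoImplicit false

namespace Pool.Agent.H5.FR2

theorem fin_thm (hTTP : TTPStmt) (hSTP : STPStmt) (hKRN : KRNStmt) : FINStmt :=
  ttp_fin hTTP hSTP hKRN

end Pool.Agent.H5.FR2
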