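import Pool.Agent.H5.FR2.Stmts

/-!
# Project URB, module SZE: a good ordering for given sizes
-/

set_option autoImplicit false

namespace Pool.Agent.H5.FR2

open Finset Pool.Agent.H5.FR Pool.Agent.H80

private lemma sze_exp {d : ℕ} (s : Finset (Fin d)) (y : Fin d → ℝ) (hy : ∀ i, 0 < y i) :
    ∏ i ∈ s, y i = Real.exp (∑ i ∈ s, Real.log (y i)) := by
  rw [Real.exp_sum]
  exact Finset.prod_congr rfl fun i _ => (Real.exp_log (hy i)).symm

private lemma sze_diff {d : ℕ} (b : Fin d → ℝ) (s t : ℕ) (hst : s ≤ t) :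
    ∑ i ∈ univ.filter (fun i : Fin d => s ≤ (i : ℕ) ∧ (i : ℕ) < t), b i =
      ∑ i ∈ univ.filter (fun i : Fin d => (i : ℕ) < t), b i -
      ∑ i ∈ univ.filter (fun i : Fin d => (i : ℕ) < s), b i := by
  rw [Finset.sum_filter, Finset.sum_filter, Finset.sum_filter, ← Finset.sum_sub_distrib]
  refine Finset.sum_congr rfl fun i _ => ?_
  by_cases h1 : (i : ℕ) < s
  · have h2 : (i : ℕ) < t := by omega
    simp [h1, h2]
  · by_cases h2 : (i : ℕ) < t
    · have h3 : s ≤ (i : ℕ) := by omega
      simp [h1, h2, h3]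
    · simp [h1, h2]

private lemma sze_core {d C : ℕ} (x y : Fin d → ℝ) (hx : ∀ i, 0 < x i) (hy : ∀ i, 0 < y i)
    (L m : ℝ) (hL : 0 < L) (hm : 0 ≤ m) (hs : 0 ≤ ∑ i, (Real.log (x i) - Real.log (y i)))
    (h : ∀ t, t ≤ d → |∑ i ∈ univ.filter (fun i : Fin d => (i : ℕ) < t),
      ((Real.log (x i) - Real.log (y i)) / L - m) / 2| ≤ C) :
    Bal (Real.exp (4 * C * L)) x y := by
  refine ⟨?_, ?_⟩
  · rw [sze_exp _ x hx, sze_exp _ y hy]
    apply Real.exp_le_exp.mpr
    rw [Finset.sum_sub_distrib] at hs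
    linarith
  · intro s t hst htd
    rw [sze_exp _ x hx, sze_exp _ y hy, ← Real.exp_add]
    apply Real.exp_le_exp.mpr
    have h1 := abs_le.mp (h t htd)
    have h2 := abs_le.mp (h s (hst.trans htd))
    have h3 := sze_diff (fun i => ((Real.log (x i) - Real.log (y i)) / L - m) / 2) s t hst
    have h4 : -(2 * (C : ℝ)) ≤ ∑ i ∈ univ.filter (fun i : Fin d => s ≤ (i : ℕ) ∧ (i : ℕ) < t),
        ((Real.log (x i) - Real.log (y i)) / L - m) / 2 := by
      rw [h3]
      linarith [h1.1, h2.2]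
    rw [← Finset.sum_div, Finset.sum_sub_distrib, ← Finset.sum_div, Finset.sum_sub_distrib,
      Finset.sum_const, nsmul_eq_mul] at h4
    set U := ∑ i ∈ univ.filter (fun i : Fin d => s ≤ (i : ℕ) ∧ (i : ℕ) < t), Real.log (x i)
    set V := ∑ i ∈ univ.filter (fun i : Fin d => s ≤ (i : ℕ) ∧ (i : ℕ) < t), Real.log (y i)
    have h5 : (0 : ℝ) ≤
        ((univ.filter (fun i : Fin d => s ≤ (i : ℕ) ∧ (i : ℕ) < t)).card : ℝ) * m := by
      positivity
    have h6 : -(4 * (C : ℝ)) ≤ (U - V) / L := by linarith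
    rw [le_div_iff₀ hL] at h6
    linarith

private lemma sze_pre {d : ℕ} (σ : Equiv.Perm (Fin d)) (t : ℕ) (a : Fin d → ℝ) :
    ∑ i ∈ pre σ t, a i = ∑ i ∈ univ.filter (fun i : Fin d => (i : ℕ) < t), a (σ i) := by
  symm
  refine Finset.sum_bij (fun i _ => σ i) ?_ ?_ ?_ ?_
  · intro i hi
    simp only [Finset.mem_filter, Finset.mem_univ, true_and] at hi
    simp [pre, hi]
  · intro i _ j _ h
    exact σ.injective h
  · intro j hj
    simp only [pre, Finset.mem_filter, Finset.mem_univ, true_and] at hj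
    exact ⟨σ.symm j, by simpa using hj, by simp⟩
  · intro i _
    rfl

theorem sze_thm (hCHN : CHNStmt) : SZEStmt := by
  intro d n C F hF x y hx hy hxy hyx
  rcases Nat.eq_zero_or_pos n with hn | hn
  · subst hn
    have hd : d = 0 := by
      by_contra hd
      have := hxy ⟨0, by omega⟩
      have := hx ⟨0, by omega⟩
      omega
    subst hd
    obtain ⟨σ, hσ⟩ := hCHN 0 (fun _ => 0) C F (hF (fun _ => 0) (by simp) (by simp))
    refine ⟨σ, fun t ht => (hσ t ht).1, Or.inl ?_⟩
    refine ⟨by simp, ?_⟩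
    intro s t _ _
    simp
  set L : ℝ := Real.log ((n : ℝ) + 1) with hLdef
  have hn1 : (1 : ℝ) ≤ n := by exact_mod_cast hn
  have hL : 0 < L := Real.log_pos (by linarith)
  have hx' : ∀ i, (0 : ℝ) < x i := fun i => by exact_mod_cast hx i
  have hy' : ∀ i, (0 : ℝ) < y i := fun i => by exact_mod_cast hy i
  have hlog : ∀ a b : ℝ, 0 < a → 0 < b → a ≤ n * b → Real.log a - Real.log b ≤ L := by
    intro a b ha hb hab
    have h1 : a ≤ ((n : ℝ) + 1) * b := by nlinarith
    have h2 := Real.log_le_log ha h1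
    rw [Real.log_mul (by positivity) hb.ne'] at h2
    linarith
  let δ : Fin d → ℝ := fun i => (Real.log (x i) - Real.log (y i)) / L
  have hδ : ∀ i, |δ i| ≤ 1 := by
    intro i
    rw [abs_le]
    have h1 := hlog (x i) (y i) (hx' i) (hy' i) (by exact_mod_cast hxy i)
    have h2 := hlog (y i) (x i) (hy' i) (hx' i) (by exact_mod_cast hyx i)
    constructor
    · rw [le_div_iff₀ hL]; linarith
    · rw [div_le_one hL]; linarith
  set m : ℝ := (∑ i, δ i) / d with hmdef
  have hsum : |∑ i, δ i| ≤ d := by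
    calc |∑ i, δ i| ≤ ∑ i, |δ i| := Finset.abs_sum_le_sum_abs _ _
      _ ≤ ∑ _i : Fin d, (1 : ℝ) := Finset.sum_le_sum fun i _ => hδ i
      _ = d := by simp
  have hm : |m| ≤ 1 := by
    rw [hmdef, abs_div, Nat.abs_cast]
    exact div_le_one_of_le₀ hsum (by positivity)
  let a : Fin d → ℝ := fun i => (δ i - m) / 2
  have ha : ∀ i, |a i| ≤ 1 := by
    intro i
    have h1 := abs_le.mp (hδ i)
    have h2 := abs_le.mp hm
    rw [abs_le]
    constructor
    · show -1 ≤ (δ i - m) / 2
      linarith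
    · show (δ i - m) / 2 ≤ 1
      linarith
  have ha0 : |∑ i, a i| ≤ 1 := by
    have h1 : ∑ i, a i = (∑ i, δ i - d * m) / 2 := by
      show ∑ i, (δ i - m) / 2 = _
      rw [← Finset.sum_div, Finset.sum_sub_distrib]
      simp
    have h2 : (d : ℝ) * m = ∑ i, δ i := by
      rcases Nat.eq_zero_or_pos d with hd | hd
      · subst hd
        simp
      · rw [hmdef]
        field_simp
    rw [h1, h2]
    simp
  obtain ⟨σ, hσ⟩ := hCHN d a C F (hF a ha ha0)
  refine ⟨σ, fun t ht => (hσ t ht).1, ?_⟩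
  have hE : ((n : ℝ) + 1) ^ (4 * C) = Real.exp (4 * C * L) := by
    rw [show (4 * (C : ℝ) * L) = ((4 * C : ℕ) : ℝ) * L by push_cast; ring, Real.exp_nat_mul,
      Real.exp_log (by positivity)]
  rw [hE]
  have hall : ∑ i, (Real.log (x (σ i)) - Real.log (y (σ i))) = L * ∑ i, δ i := by
    rw [Equiv.sum_comp σ (fun i => Real.log ((x i : ℕ) : ℝ) - Real.log ((y i : ℕ) : ℝ)),
      Finset.mul_sum]
    refine Finset.sum_congr rfl fun i _ => ?_
    show _ = L * (_ / L)
    field_simp
  rcases le_total 0 m with h0 | h0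
  · left
    refine sze_core _ _ (fun i => hx' (σ i)) (fun i => hy' (σ i)) L m hL h0 ?_ ?_
    · rw [hall]
      refine mul_nonneg hL.le ?_
      rcases Nat.eq_zero_or_pos d with hd | hd
      · subst hd
        simp
      · rw [hmdef, le_div_iff₀ (by exact_mod_cast hd)] at h0
        linarith
    · intro t ht
      have := (hσ t ht).2
      rw [sze_pre] at this
      exact this
  · right
    refine sze_core _ _ (fun i => hy' (σ i)) (fun i => hx' (σ i)) L (-m) hL (by linarith) ?_ ?_
    · have h1 : ∑ i, (Real.log (y (σ i)) - Real.log (x (σ i))) = -(L * ∑ i, δ i) := by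
        rw [← hall, ← Finset.sum_neg_distrib]
        exact Finset.sum_congr rfl fun i _ => by ring
      rw [h1]
      have h2 : ∑ i, δ i ≤ 0 := by
        rcases Nat.eq_zero_or_pos d with hd | hd
        · subst hd
          simp
        · rw [hmdef, div_le_iff₀ (by exact_mod_cast hd)] at h0
          linarith
      nlinarith
    · intro t ht
      have h1 := (hσ t ht).2
      rw [sze_pre, ← abs_neg, ← Finset.sum_neg_distrib] at h1
      refine le_trans (le_of_eq ?_) h1
      congr 1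
      refine Finset.sum_congr rfl fun i _ => ?_
      show _ = -(((Real.log (x (σ i)) - Real.log (y (σ i))) / L - m) / 2)
      ring

end Pool.Agent.H5.FR2
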