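import Pool.Agent.H5.FR2.Stmts

/-!
# Project URB, modules TTP and FIN: good cores for a tensor train
-/

set_option autoImplicit false

namespace Pool.Agent.H5.FR2

open Finset Pool.Agent.H5.FR Pool.Agent.H80

/-- the Kronecker products -/
noncomputable def ttpB {d : ℕ} {X Y : Fin (d + 1) → Type} {S N : Type}
    (M : S → Matrix (∀ i : Fin d, X i.castSucc) (∀ i : Fin d, Y i.castSucc) ℂ)
    (A : N → Matrix (X (Fin.last d)) (Y (Fin.last d)) ℂ) :
    S × N → Matrix (∀ i, X i) (∀ i, Y i) ℂ :=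
  fun c p q => M c.1 (fun i => p i.castSucc) (fun i => q i.castSucc) *
    A c.2 (p (Fin.last d)) (q (Fin.last d))

lemma ttp_mix {n W : ℕ} (d : ℕ) (X Y : Fin (d + 1) → Type)
    (A : ∀ i, Fin n → Matrix (X i) (Y i) ℂ) (g : Fin (d + 1) → Fin W → Fin n → Fin W → ℂ)
    (v : Fin W) : tt (d + 1) X Y A g v =
      mix (ttpB (tt d (fun i => X i.castSucc) (fun i => Y i.castSucc) (fun i => A i.castSucc)
        (fun i => g i.castSucc)) (A (Fin.last d))) (fun c => g (Fin.last d) c.1 c.2 v) := by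
  ext p q
  simp only [tt, mix, Matrix.sum_apply, Matrix.smul_apply, ttpB, smul_eq_mul,
    Fintype.sum_prod_type]
  refine Finset.sum_congr rfl fun u _ => Finset.sum_congr rfl fun a _ => ?_
  ring

lemma ttp_nonneg {Z : Type} [Fintype Z] (K : Matrix Z Z ℂ) (hK : K.conjTranspose = K) :
    0 ≤ tr2 K := by
  unfold tr2
  nth_rewrite 1 [← hK]
  rw [Matrix.trace, Complex.re_sum]
  refine Finset.sum_nonneg fun i _ => ?_
  rw [Matrix.diag_apply, Matrix.mul_apply, Complex.re_sum]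
  refine Finset.sum_nonneg fun j _ => ?_
  rw [Matrix.conjTranspose_apply, Complex.star_def, ← Complex.normSq_eq_conj_mul_self,
    Complex.ofReal_re]
  exact Complex.normSq_nonneg _

lemma ttp_KK {ι X Y : Type} [Fintype ι] [Fintype X] [Fintype Y] (B : ι → Matrix X Y ℂ) :
    0 ≤ tr2 (KK B) := by
  apply ttp_nonneg
  rw [KK, Matrix.conjTranspose_sum]
  refine Finset.sum_congr rfl fun i _ => ?_
  rw [Matrix.conjTranspose_mul, Matrix.conjTranspose_conjTranspose]

lemma ttp_LL {ι X Y : Type} [Fintype ι] [Fintype X] [Fintype Y] (B : ι → Matrix X Y ℂ) :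
    0 ≤ tr2 (LL B) := by
  apply ttp_nonneg
  rw [LL, Matrix.conjTranspose_sum]
  refine Finset.sum_congr rfl fun i _ => ?_
  rw [Matrix.conjTranspose_mul, Matrix.conjTranspose_conjTranspose]

lemma ttp_zero {n W : ℕ} (X Y : Fin 0 → Type) (A : ∀ i, Fin n → Matrix (X i) (Y i) ℂ)
    (g : Fin 0 → Fin W → Fin n → Fin W → ℂ) (u : Fin W) (p : ∀ i, X i) (q : ∀ i, Y i) :
    tt 0 X Y A g u p q = if (u : ℕ) = 0 then 1 else 0 := rfl

theorem ttp_thm (hSTP : STPStmt) (hKRN : KRNStmt) : TTPStmt := by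
  intro n W d
  induction d with
  | zero =>
    intro X Y _ _ _ _ A _ a b c _ _ _
    refine ⟨fun _ _ _ _ => 0, ?_⟩
    have h1 : KK (tt 0 X Y A (fun (_ : Fin 0) (_ : Fin (W + 1)) (_ : Fin n)
        (_ : Fin (W + 1)) => (0 : ℂ))) = 1 := by
      ext p q
      have hpq : p = q := Subsingleton.elim _ _
      subst hpq
      rw [KK, Matrix.sum_apply, Finset.sum_eq_single (0 : Fin (W + 1))]
      · rw [Matrix.mul_apply]
        simp [Matrix.conjTranspose_apply, ttp_zero]
      · intro u _ hu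
        have : (u : ℕ) ≠ 0 := fun h => hu (Fin.ext h)
        rw [Matrix.mul_apply]
        simp [Matrix.conjTranspose_apply, ttp_zero, this]
      · simp
    have h2 : LL (tt 0 X Y A (fun (_ : Fin 0) (_ : Fin (W + 1)) (_ : Fin n)
        (_ : Fin (W + 1)) => (0 : ℂ))) = 1 := by
      ext p q
      have hpq : p = q := Subsingleton.elim _ _
      subst hpq
      rw [LL, Matrix.sum_apply, Finset.sum_eq_single (0 : Fin (W + 1))]
      · rw [Matrix.mul_apply]
        simp [Matrix.conjTranspose_apply, ttp_zero]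
      · intro u _ hu
        have : (u : ℕ) ≠ 0 := fun h => hu (Fin.ext h)
        rw [Matrix.mul_apply]
        simp [Matrix.conjTranspose_apply, ttp_zero, this]
      · simp
    rw [h1, h2]
    simp [tr1, tr2, pq]
  | succ d ih =>
    intro X Y _ _ _ _ A hA a b c ha hb hc
    set ξ := tr2 (KK (A (Fin.last d))) with hξ
    set η := tr2 (LL (A (Fin.last d))) with hη
    have hξ0 : 0 ≤ ξ := ttp_KK _
    have hη0 : 0 ≤ η := ttp_LL _
    have hW0 : (0 : ℝ) ≤ (W : ℝ) + 1 := by positivity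
    obtain ⟨g', hg'⟩ := ih (fun i => X i.castSucc) (fun i => Y i.castSucc)
      (fun i => A i.castSucc) (fun i => hA i.castSucc)
      (a * ((W + 1) ^ 2 * ξ) + b * ((W + 1) * ξ)) (a * ((W + 1) * η) + b * ((W + 1) ^ 2 * η))
      (c * (W + 1) ^ 2) (by positivity) (by positivity) (by positivity)
    set M := tt d (fun i => X i.castSucc) (fun i => Y i.castSucc) (fun i => A i.castSucc) g'
      with hM
    obtain ⟨k1, k2, k3⟩ := hKRN d X Y (Fin (W + 1)) (Fin n) M (A (Fin.last d))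
      (ttpB M (A (Fin.last d))) (fun _ _ _ => rfl)
    obtain ⟨gl, hgl⟩ := hSTP (∀ i, X i) (∀ i, Y i) (Fin (W + 1) × Fin n) (Fin (W + 1))
      (ttpB M (A (Fin.last d))) a b c hc
    refine ⟨Fin.snoc (α := fun _ => Fin (W + 1) → Fin n → Fin (W + 1) → ℂ) g'
      (fun u a v => gl (u, a) v), ?_⟩
    have htt : tt (d + 1) X Y A (Fin.snoc (α := fun _ => Fin (W + 1) → Fin n → Fin (W + 1) → ℂ)
        g' (fun u a v => gl (u, a) v)) = fun v => mix (ttpB M (A (Fin.last d)))
          (fun c => gl c v) := by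
      funext v
      rw [ttp_mix]
      simp only [Fin.snoc_castSucc, Fin.snoc_last]
      rfl
    rw [htt]
    refine hgl.trans ?_
    rw [k1, k2, k3, hA (Fin.last d), Fintype.card_fin]
    simp only [pq]
    push_cast
    set s := pq ((W : ℝ) + 1) d (fun i => tr2 (KK (A i.castSucc)))
      (fun i => tr2 (LL (A i.castSucc))) with hs
    have e1 : a * (((W : ℝ) + 1) ^ 2 * (tr2 (KK M) * ξ) + ((W : ℝ) + 1) * (tr2 (LL M) * η)) +
        b * (((W : ℝ) + 1) ^ 2 * (tr2 (LL M) * η) + ((W : ℝ) + 1) * (tr2 (KK M) * ξ)) -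
        c * (((W : ℝ) + 1) * (tr1 (KK M) * 1)) ^ 2 =
        (a * ((W + 1) ^ 2 * ξ) + b * ((W + 1) * ξ)) * tr2 (KK M) +
        (a * ((W + 1) * η) + b * ((W + 1) ^ 2 * η)) * tr2 (LL M) -
        (c * (W + 1) ^ 2) * tr1 (KK M) ^ 2 := by ring
    rw [e1]
    refine hg'.trans (le_of_eq ?_)
    ring

/-- FIN -/
theorem ttp_fin (hTTP : TTPStmt) (hSTP : STPStmt) (hKRN : KRNStmt) : FINStmt := by
  intro n W d X Y _ _ _ _ A hA c hc hlt
  set ξ := tr2 (KK (A (Fin.last d))) with hξ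
  set η := tr2 (LL (A (Fin.last d))) with hη
  have hξ0 : 0 ≤ ξ := ttp_KK _
  have hη0 : 0 ≤ η := ttp_LL _
  obtain ⟨g', hg'⟩ := hTTP n W d (fun i => X i.castSucc) (fun i => Y i.castSucc)
    (fun i => A i.castSucc) (fun i => hA i.castSucc) ξ η c hξ0 hη0 hc
  set M := tt d (fun i => X i.castSucc) (fun i => Y i.castSucc) (fun i => A i.castSucc) g'
    with hM
  obtain ⟨k1, k2, k3⟩ := hKRN d X Y (Fin (W + 1)) (Fin n) M (A (Fin.last d))
    (ttpB M (A (Fin.last d))) (fun _ _ _ => rfl)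
  obtain ⟨gl, hgl⟩ := hSTP (∀ i, X i) (∀ i, Y i) (Fin (W + 1) × Fin n) (Fin 1)
    (ttpB M (A (Fin.last d))) 1 0 c hc
  refine ⟨Fin.snoc (α := fun _ => Fin (W + 1) → Fin n → Fin (W + 1) → ℂ) g'
      (fun u a _ => gl (u, a) 0), ?_⟩
  have htt : tt (d + 1) X Y A (Fin.snoc (α := fun _ => Fin (W + 1) → Fin n → Fin (W + 1) → ℂ)
      g' (fun u a _ => gl (u, a) 0)) 0 = mix (ttpB M (A (Fin.last d))) (fun c => gl c 0) := by
    rw [ttp_mix]
    simp only [Fin.snoc_castSucc, Fin.snoc_last]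
    rfl
  rw [htt]
  have hK : KK (fun v : Fin 1 => mix (ttpB M (A (Fin.last d))) (fun c => gl c v)) =
      mix (ttpB M (A (Fin.last d))) (fun c => gl c 0) *
        (mix (ttpB M (A (Fin.last d))) (fun c => gl c 0)).conjTranspose := by
    simp [KK]
  rw [hK, k1, k2, k3, hA (Fin.last d), Fintype.card_fin] at hgl
  simp only [Nat.cast_one, one_pow, one_mul, mul_one, zero_mul, add_zero] at hgl
  linarith

end Pool.Agent.H5.FR2
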